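import Pool.Agent.H3.Mag1

namespace Pool.Agent.Results.MP_17ecd9_gt.Stars

open Pool.Agent.H3.Mag

/-- A tractable subspace of `L₁` on which magnitude is discontinuous, both on finite and on
compact subsets. -/
theorem result : ∃ T : Set L1, Tractable T ∧ ¬ ContFin T ∧ ¬ ContCmp T := main

end Pool.Agent.Results.MP_17ecd9_gt.Stars
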